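import Pool.Agent.Y58.HT.Stm

/-!
# Project HT, block EQ (helper909)

Adaptation of `H361P.equi_core` (`Pool/Agent/H361R3/PGL/ProjEqui.lean`).
-/

universe u

namespace Pool.Agent.Y909.HT

open Set Matrix H361P Pool.Agent.Y58.HT
open scoped LinearAlgebra.Projectivization MatrixGroups

theorem t_eq : S_EQ.{u} := by
  intro F _ v m r hr hr1 t0 ht0 ht0r hm1 hm2 hm3 z w hz hw
  have hvt0 : 0 < v t0 := v.pos ht0
  have s1 : ∀ t : F, ¬ pd v (m • pt t) (pt 0) < r →
      r * nn v (m • ![1, t]) ≤ v (m 1 0 + m 1 1 * t) := by
    intro t ht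
    have h2 := not_lt.1 ht
    rw [pt, pt, Projectivization.smul_mk, pd_mk, dd_10, le_div_iff₀
      (nn_pos v (smul_ne (v10 t)))] at h2
    have h3 : (m • ![1, t] : Fin 2 → F) 1 = m 1 0 + m 1 1 * t := by simp
    rw [h3] at h2
    exact h2
  have s1' : ∀ t : F, ¬ pd v (m • pt t) (pt 0) < r → m 1 0 + m 1 1 * t ≠ 0 := by
    intro t ht h0
    have := s1 t ht
    rw [h0, map_zero] at this
    have h1 := nn_pos v (smul_ne (g := m) (v10 t))
    have : 0 < r * nn v (m • ![1, t]) := by positivity
    linarith
  have s1'' : ∀ t : F, ¬ pd v (m • pt t) (pt 0) < r →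
      r * v (m 0 0 + m 0 1 * t) ≤ v (m 1 0 + m 1 1 * t) := by
    intro t ht
    refine le_trans ?_ (s1 t ht)
    apply mul_le_mul_of_nonneg_left _ hr.le
    have := le_nn0 v (m • ![1, t])
    simpa using this
  set a := m 0 0 with ha
  set b := m 0 1 with hb
  set c := m 1 0 with hc
  set d := m 1 1 with hd
  have hvc : 0 < v c := by
    have := s1' 0 hm1
    rw [mul_zero, add_zero] at this
    exact v.pos this
  have s2 : r * v d ≤ v c := by
    set x : Fin 2 → F := m⁻¹ • ![1, 0] with hx
    have h2 := not_lt.1 hm2
    rw [pt, Projectivization.smul_mk, pd_mk, dd_10, le_div_iff₀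
      (nn_pos v (smul_ne (v10 0)))] at h2
    have h3 : r * v (x 0) ≤ v (x 1) :=
      le_trans (mul_le_mul_of_nonneg_left (le_nn0 v x) hr.le) h2
    have h4 : m • x = ![1, 0] := smul_inv_smul m _
    have h5 : a * x 0 + b * x 1 = 1 := by
      have h6 : (m • x) 0 = a * x 0 + b * x 1 := by simp [ha, hb]
      rw [← h6, h4]
      simp
    have h7 : c * x 0 + d * x 1 = 0 := by
      have h6 : (m • x) 1 = c * x 0 + d * x 1 := by simp [hc, hd]
      rw [← h6, h4]
      simp
    by_cases hx0 : x 0 = 0
    · rw [hx0, mul_zero, zero_add] at h5 h7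
      have hx1 : x 1 ≠ 0 := by
        intro h0
        rw [h0, mul_zero] at h5
        exact zero_ne_one h5
      have hd0 : d = 0 := (mul_eq_zero.1 h7).resolve_right hx1
      rw [hd0, map_zero, mul_zero]
      exact hvc.le
    · have hvx : 0 < v (x 0) := v.pos hx0
      have h8 : v c * v (x 0) = v d * v (x 1) := by
        have h9 : c * x 0 = -(d * x 1) := by linear_combination h7
        rw [← map_mul, h9, v.map_neg, map_mul]
      have h10 : v d * (r * v (x 0)) ≤ v c * v (x 0) := by
        rw [h8]
        exact mul_le_mul_of_nonneg_left h3 (v.nonneg _)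
      have h11 : (r * v d) * v (x 0) ≤ v c * v (x 0) := by
        calc (r * v d) * v (x 0) = v d * (r * v (x 0)) := by ring
          _ ≤ _ := h10
      exact le_of_mul_le_mul_right h11 hvx
  have s3 : r * v a ≤ v c := by
    have := s1'' 0 hm1
    simpa using this
  have s4 : r * (v b * v t0) ≤ 3 * v c := by
    have h1 : v (b * t0) ≤ v (a + b * t0) + v a := by
      have := v.sub_le (a + b * t0) 0 a
      simp only [sub_zero, zero_sub, v.map_neg] at this
      have e : b * t0 = (a + b * t0) - a := by ring
      rw [e]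
      simpa using this
    rw [map_mul] at h1
    have h2 := s1'' t0 hm3
    have h3 : v (c + d * t0) ≤ v c + v d * v t0 := by
      have := v.add_le c (d * t0)
      rwa [map_mul] at this
    have h4 : v d * v t0 ≤ v c := by
      calc v d * v t0 ≤ v d * r := mul_le_mul_of_nonneg_left ht0r.le (v.nonneg _)
        _ = r * v d := by ring
        _ ≤ v c := s2
    nlinarith [mul_le_mul_of_nonneg_left h1 hr.le]
  have s5 : v m.val.det ≤ (1 / r ^ 2 + 3 / (r * v t0)) * v c ^ 2 := by
    have h1 : v m.val.det ≤ v a * v d + v b * v c := by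
      rw [Matrix.det_fin_two]
      have := v.sub_le (a * d) 0 (b * c)
      simp only [sub_zero, zero_sub, v.map_neg, map_mul] at this
      exact this
    have ha' : v a ≤ v c / r := by rw [le_div_iff₀ hr]; linarith
    have hd' : v d ≤ v c / r := by rw [le_div_iff₀ hr]; linarith
    have hb' : v b ≤ 3 * v c / (r * v t0) := by
      rw [le_div_iff₀ (by positivity)]
      calc v b * (r * v t0) = r * (v b * v t0) := by ring
        _ ≤ _ := s4
    calc v m.val.det ≤ v a * v d + v b * v c := h1
      _ ≤ (v c / r) * (v c / r) + (3 * v c / (r * v t0)) * v c :=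
          add_le_add (mul_le_mul ha' hd' (v.nonneg _) (by positivity))
            (mul_le_mul_of_nonneg_right hb' hvc.le)
      _ = _ := by field_simp
  have s6 : ∀ x : Fin 2 → F, x ≠ 0 → dd v x ![1, 0] < r / 2 → v c * nn v x / 2 ≤ nn v (m • x) := by
    intro x hx hxr
    have px := nn_pos v hx
    rw [dd_10, div_lt_iff₀ px] at hxr
    have hx0 : nn v x = v (x 0) := by
      rw [nn]
      apply max_eq_left
      by_contra h
      have h' : nn v x = v (x 1) := by rw [nn]; exact max_eq_right (not_le.1 h).le
      rw [h'] at hxr px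
      nlinarith
    have h1 : v (c * x 0) ≤ v (c * x 0 + d * x 1) + v (d * x 1) := by
      have := v.sub_le (c * x 0 + d * x 1) 0 (d * x 1)
      simpa using this
    have h2 : v (c * x 0 + d * x 1) ≤ nn v (m • x) := by
      have := le_nn1 v (m • x)
      simpa using this
    rw [map_mul, map_mul, ← hx0] at h1
    have h3 : v d * v (x 1) ≤ v c * nn v x / 2 := by
      calc v d * v (x 1) ≤ v d * (r / 2 * nn v x) :=
            mul_le_mul_of_nonneg_left hxr.le (v.nonneg _)
        _ = (r * v d) * nn v x / 2 := by ring
        _ ≤ v c * nn v x / 2 := by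
            have := mul_le_mul_of_nonneg_right s2 px.le
            linarith
    linarith
  induction z using Projectivization.ind with
  | h z hz0 =>
    induction w using Projectivization.ind with
    | h w hw0 =>
      rw [pt, pd_mk] at hz hw
      rw [Projectivization.smul_mk, Projectivization.smul_mk, pd_mk, pd_mk]
      have k1 := s6 z hz0 hz
      have k2 := s6 w hw0 hw
      have pz := nn_pos v hz0
      have pw := nn_pos v hw0
      have p1 : 0 < v c * nn v z / 2 := by positivity
      have p2 : 0 < v c * nn v w / 2 := by positivity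
      rw [dd, wd_smul, map_mul, dd]
      calc v m.val.det * v (wd z w) / (nn v (m • z) * nn v (m • w))
          ≤ (((1 / r ^ 2 + 3 / (r * v t0)) * v c ^ 2) * v (wd z w)) /
            ((v c * nn v z / 2) * (v c * nn v w / 2)) := by
            apply div_le_div₀ (by positivity)
              (mul_le_mul_of_nonneg_right s5 (v.nonneg _)) (by positivity)
            exact mul_le_mul k1 k2 p2.le (p1.le.trans k1)
        _ = _ := by field_simp; ring

end Pool.Agent.Y909.HT
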